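import Mathlib
import Pool.Agent.Lib.CritL.Final

/-!
# Sublattices of the dual of a critical lattice

Lattices, determinant, minimum, ratio `R` and critical lattices are as in the problem; a lattice of `E^d` is given by a
basis `b`.
-/

set_option autoImplicit false

namespace Pool.Agent.Results.MP_fa511b_nt.DualVolume

/-- the Euclidean space of dimension `d` -/
abbrev E (d : ℕ) := EuclideanSpace ℝ (Fin d)

/-- the lattice of the integer combinations of the vectors `b i` -/
def lat {d : ℕ} (b : Fin d → E d) : Submodule ℤ (E d) := Submodule.span ℤ (Set.range b)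

/-- its determinant -/
noncomputable def detL {d : ℕ} (b : Fin d → E d) : ℝ := |(Matrix.of fun i j => b i j).det|

/-- its minimum: the least length of a nonzero vector -/
noncomputable def minL {d : ℕ} (b : Fin d → E d) : ℝ := sInf {r : ℝ | ∃ v ∈ lat b, v ≠ 0 ∧ r = ‖v‖}

/-- the ratio `R` of the determinant and the `d`-th power of the minimum -/
noncomputable def ratio {d : ℕ} (b : Fin d → E d) : ℝ := detL b / minL b ^ d

/-- `b` is a basis and its lattice is critical: no lattice in dimension `d` has a smaller ratio -/
def IsCritical {d : ℕ} (b : Fin d → E d) : Prop :=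
  LinearIndependent ℝ b ∧ ∀ c : Fin d → E d, LinearIndependent ℝ c → ratio b ≤ ratio c

/-- `w` is a vector of the dual lattice -/
def InDual {d : ℕ} (w : E d) (b : Fin d → E d) : Prop := ∀ x ∈ lat b, ∃ k : ℤ, inner ℝ w x = (k : ℝ)

/-- the volume of the parallelepiped spanned by `w` (square root of the Gram determinant) -/
noncomputable def vol {n d : ℕ} (w : Fin n → E d) : ℝ := Real.sqrt (Matrix.of fun i j => inner ℝ (w i) (w j)).det

/-- For a critical lattice `L` in `E^d`, `1 ≤ n < d`, linearly independent dual vectors `w_1, …, w_n` and any lattice `N`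
in `E^n`: `λ(L)^n vol(w_1, …, w_n) R(N) > 1`. -/
theorem result (n d : ℕ) (hn : 1 ≤ n) (hnd : n < d) (b : Fin d → E d) (hb : IsCritical b) (w : Fin n → E d)
    (hw : LinearIndependent ℝ w) (hwb : ∀ i, InDual (w i) b) (c : Fin n → E n) (hc : LinearIndependent ℝ c) :
    1 < minL b ^ n * vol w * ratio c :=
  CritL.part_volume hn hnd hb hw hwb hc

end Pool.Agent.Results.MP_fa511b_nt.DualVolume
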