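import Mathlib
import Pool.Agent.Lib.CritL.Final2

/-!
# Critical lattices are not permutation symmetric in dimension at least 9

Lattices, determinant, minimum, ratio `R` and critical lattices are as in the problem; a lattice of `E^d` is given by a
basis `b`.
-/

set_option autoImplicit false

namespace Pool.Agent.Results.MP_fa511b_nt.PermutationSymmetry

/-- the Euclidean space of dimension `d` -/
abbrev E (d : ℕ) := EuclideanSpace ℝ (Fin d)

/-- the lattice of the integer combinations of the vectors `b i` -/
def lat {d : ℕ} (b : Fin d → E d) : Submodule ℤ (E d) := Submodule.span ℤ (Set.range b)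

/-- its determinant -/
noncomputable def detL {d : ℕ} (b : Fin d → E d) : ℝ := |(Matrix.of fun i j => b i j).det|

/-- its minimum: the least length of a nonzero vector -/
noncomputable def minL {d : ℕ} (b : Fin d → E d) : ℝ := sInf {r : ℝ | ∃ v ∈ lat b, v ≠ 0 ∧ r = ‖v‖}

/-- the ratio `R` of the determinant and the `d`-th power of the minimum -/
noncomputable def ratio {d : ℕ} (b : Fin d → E d) : ℝ := detL b / minL b ^ d

/-- `b` is a basis and its lattice is critical: no lattice in dimension `d` has a smaller ratio -/
def IsCritical {d : ℕ} (b : Fin d → E d) : Prop :=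
  LinearIndependent ℝ b ∧ ∀ c : Fin d → E d, LinearIndependent ℝ c → ratio b ≤ ratio c

/-- the isometry which permutes the orthonormal vectors `u i` and fixes all vectors orthogonal to them -/
noncomputable def permute {k d : ℕ} (u : Fin k → E d) (σ : Equiv.Perm (Fin k)) (x : E d) : E d :=
  x + ∑ i, (inner ℝ (u i) x : ℝ) • (u (σ i) - u i)

/-- the even permutations of the vectors `u i` preserve the lattice of `b` -/
def EvenInvariant {k d : ℕ} (u : Fin k → E d) (b : Fin d → E d) : Prop :=
  ∀ σ : Equiv.Perm (Fin k), Equiv.Perm.sign σ = 1 → ∀ x ∈ lat b, permute u σ x ∈ lat b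

/-- Let `d ≥ 9`. If a critical lattice in `E^d` is invariant under the even permutations of `k` orthonormal vectors (fixing
the vectors orthogonal to them), then `k < d` and `k < 15`. -/
theorem result (d k : ℕ) (hd : 9 ≤ d) (b : Fin d → E d) (hb : IsCritical b) (u : Fin k → E d) (hu : Orthonormal ℝ u)
    (h : EvenInvariant u b) : k < d ∧ k < 15 :=
  CritL.sym_lt hd hb hu h

end Pool.Agent.Results.MP_fa511b_nt.PermutationSymmetry
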