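import Mathlib
import Pool.Agent.Lib.CritL.Dens2

/-!
# In many dimensions critical lattices have no reflections and no short dual vectors

Lattices, determinant, minimum, ratio `R` and critical lattices are as in the problem; a lattice of `E^d` is given by a
basis `b`.
-/

set_option autoImplicit false

namespace Pool.Agent.Results.MP_fa511b_nt.ReflectionDensity

/-- the Euclidean space of dimension `d` -/
abbrev E (d : ℕ) := EuclideanSpace ℝ (Fin d)

/-- the lattice of the integer combinations of the vectors `b i` -/
def lat {d : ℕ} (b : Fin d → E d) : Submodule ℤ (E d) := Submodule.span ℤ (Set.range b)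

/-- its determinant -/
noncomputable def detL {d : ℕ} (b : Fin d → E d) : ℝ := |(Matrix.of fun i j => b i j).det|

/-- its minimum: the least length of a nonzero vector -/
noncomputable def minL {d : ℕ} (b : Fin d → E d) : ℝ := sInf {r : ℝ | ∃ v ∈ lat b, v ≠ 0 ∧ r = ‖v‖}

/-- the ratio `R` of the determinant and the `d`-th power of the minimum -/
noncomputable def ratio {d : ℕ} (b : Fin d → E d) : ℝ := detL b / minL b ^ d

/-- `b` is a basis and its lattice is critical: no lattice in dimension `d` has a smaller ratio -/
def IsCritical {d : ℕ} (b : Fin d → E d) : Prop :=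
  LinearIndependent ℝ b ∧ ∀ c : Fin d → E d, LinearIndependent ℝ c → ratio b ≤ ratio c

/-- the reflection of `x` in the hyperplane orthogonal to `v` -/
noncomputable def refl {d : ℕ} (v x : E d) : E d := x - (2 * inner ℝ v x / inner ℝ v v) • v

/-- the reflection in the hyperplane orthogonal to `v` preserves the lattice of `b` -/
def Preserves {d : ℕ} (v : E d) (b : Fin d → E d) : Prop := ∀ x ∈ lat b, refl v x ∈ lat b

/-- `w` is a vector of the dual lattice -/
def InDual {d : ℕ} (w : E d) (b : Fin d → E d) : Prop := ∀ x ∈ lat b, ∃ k : ℤ, inner ℝ w x = (k : ℝ)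

/-- some critical lattice in dimension `d` is preserved by a reflection -/
def HasReflection (d : ℕ) : Prop := ∃ b : Fin d → E d, IsCritical b ∧ ∃ v : E d, v ≠ 0 ∧ Preserves v b

/-- some critical lattice `L` in dimension `d` has a nonzero dual vector `w` with `λ(L) |w| ≤ T` -/
def HasShortDual (T : ℝ) (d : ℕ) : Prop :=
  ∃ b : Fin d → E d, IsCritical b ∧ ∃ w : E d, w ≠ 0 ∧ InDual w b ∧ minL b * ‖w‖ ≤ T

open scoped Classical in
/-- For all real `T`, `0 ≤ θ < 1`: the dimensions `d` in which some critical lattice is preserved by a reflection, or has a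
nonzero dual vector `w` with `λ(L) |w| ≤ T d^θ`, have upper density at most `1 / (2 (1 - θ))`; for `θ = 0` this is 1/2. -/
theorem result (T θ ε : ℝ) (hθ : 0 ≤ θ) (hθ1 : θ < 1) (hε : 0 < ε) : ∃ N₀ : ℕ, ∀ N ≥ N₀,
    (((Finset.Icc 1 N).filter (fun d => HasReflection d ∨ HasShortDual (T * (d : ℝ) ^ θ) d)).card : ℝ) ≤
      (1 / (2 * (1 - θ)) + ε) * N :=
  CritL.part_density2 T θ ε hθ hθ1 hε

end Pool.Agent.Results.MP_fa511b_nt.ReflectionDensity
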